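import Pool.Agent.Helper43.GD.St

/-! Modules TWO and L13 of project GD (MP_b3ce06_al). -/

set_option autoImplicit false

namespace Pool.Agent.Helper69.GD

open Pool.Agent.Helper43.GD

theorem hTWO (hP1 : StP1) (hP2 : StP2) (hCMB : StCMB) (hGNS : StGNS) : StTWO := by
  intro L A _ _ Q M x hR hx
  obtain ⟨c, hc⟩ := hR.two
  have hg := hR.gold
  have hx2 : (x : L) ^ 2 = 1 - (x : L) := by linear_combination hg
  have hx3 : (x : L) ^ 3 = 2 * (x : L) - 1 := by linear_combination ((x : L) - 1) * hg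
  have h3U : x ^ 3 ∈ Q.U := Q.U.pow_mem hx 3
  have h6U : x ^ 6 ∈ Q.U := Q.U.pow_mem hx 6
  have e1 : (((c * x ^ 2)⁻¹ : Lˣ) : L) * (2 * (x : L) ^ 2) = 1 := by
    have := (c * x ^ 2).inv_mul
    rw [Units.val_mul, Units.val_pow_eq_pow_val, hc] at this
    exact this
  have e2 : (((c * c * x ^ 3)⁻¹ : Lˣ) : L) * (2 * 2 * (x : L) ^ 3) = 1 := by
    have := (c * c * x ^ 3).inv_mul
    rw [Units.val_mul, Units.val_mul, Units.val_pow_eq_pow_val, hc] at this
    exact this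
  have s1 : Q.S (c * x ^ 2)⁻¹ (x ^ 3) := by
    refine hP1 L A Q _ _ (-1) h3U Q.neg ?_
    rw [Units.val_neg, Units.val_one, Units.val_pow_eq_pow_val]
    linear_combination (1 : L) * e1 + (-(((c * x ^ 2)⁻¹ : Lˣ) : L)) * hx3 +
      (-2 * (((c * x ^ 2)⁻¹ : Lˣ) : L)) * hx2
  have s2 : Q.S (c * c * x ^ 3)⁻¹ (x ^ 6) := by
    refine hP1 L A Q _ _ (-1) h6U Q.neg ?_
    rw [Units.val_neg, Units.val_one, Units.val_pow_eq_pow_val]
    have h6 : (x : L) ^ 6 = 1 - 4 * (x : L) ^ 3 := by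
      have : (x : L) ^ 6 = (x : L) ^ 3 * (x : L) ^ 3 := by ring
      rw [this, hx3]
      linear_combination 4 * hg
    rw [h6]
    linear_combination (1 : L) * e2
  have t1 : Q.S c⁻¹ (x ^ 3) := by
    have e : (c * x ^ 2)⁻¹ = (x ^ 2)⁻¹ * c⁻¹ := by rw [mul_inv_rev]
    rw [e] at s1
    exact (Q.S_smul_iff (Q.U.inv_mem (Q.U.pow_mem hx 2))).1 s1
  have t2 : Q.S (c * c)⁻¹ (x ^ 6) := by
    have e : (c * c * x ^ 3)⁻¹ = (x ^ 3)⁻¹ * (c * c)⁻¹ := by rw [mul_inv_rev]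
    rw [e] at s2
    exact (Q.S_smul_iff (Q.U.inv_mem (Q.U.pow_mem hx 3))).1 s2
  obtain ⟨t, ht⟩ := hR.four
  have hxM : x ^ M = -1 := by
    apply Units.ext
    rw [Units.val_pow_eq_pow_val, Units.val_neg, Units.val_one]
    exact hR.xM
  have t3 : Q.S (c * c)⁻¹ (-1) := by
    have h := Q.S_pow t2 (2 * t)
    have e : (x ^ 6) ^ (2 * t) = (-1 : Lˣ) := by
      rw [← pow_mul]
      have : 6 * (2 * t) = M * 3 := by rw [ht]; ring
      rw [this, pow_mul, hxM]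
      apply Units.ext
      push_cast
      ring
    rwa [e] at h
  have t4 : Q.S c (-1) := by
    refine (hP2 L A Q c (-1) (c * c)⁻¹ Q.neg ?_).2 t3
    have := (c * c).inv_mul
    rw [Units.val_mul] at this
    rw [Units.val_neg, Units.val_one]
    rw [show (1 - -1 : L) = (c : L) by rw [hc]; ring]
    exact this
  have hcU : c⁻¹ ∈ Q.U := by
    refine hCMB L A Q c⁻¹ (x ^ 3) (-1) t1 (by rw [inv_inv]; exact t4) ?_ ?_
    · have e : (1 - ((x ^ 3 : Lˣ) : L)) * (1 - ((-1 : Lˣ) : L)) = ((c * c * x ^ 2 : Lˣ) : L) := by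
        rw [Units.val_mul, Units.val_mul, Units.val_pow_eq_pow_val, Units.val_pow_eq_pow_val, hc,
          Units.val_neg, Units.val_one, hx3, hx2]
        ring
      rw [e]
      exact Units.isUnit _
    · exact (hGNS L M x hR).2.2.1
  refine ⟨c, ?_, hc⟩
  have := Q.U.inv_mem hcU
  rwa [inv_inv] at this

theorem hL13 (hP1 : StP1) (hP2 : StP2) (hCMB : StCMB) (hTWO : StTWO) : StL13 := by
  intro L A _ _ Q M x hR hx y hy m hm hG
  obtain ⟨c, hcU, hc⟩ := hTWO L A Q M x hR hx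
  have hu : IsUnit (1 - (y : L)) := by
    have e : (1 - (y : L)) * ∑ i ∈ Finset.range m, (y : L) ^ i = (c : L) := by
      rw [mul_neg_geom_sum, hm, hc]; ring
    have h2 : IsUnit ((1 - (y : L)) * ∑ i ∈ Finset.range m, (y : L) ^ i) := by
      rw [e]; exact c.isUnit
    exact isUnit_of_mul_isUnit_left h2
  obtain ⟨w, hw⟩ := hu
  have hwi : ((w⁻¹ : Lˣ) : L) * (1 - (y : L)) = 1 := by
    rw [← hw]; exact w.inv_mul
  have s1 : Q.S w⁻¹ y := by
    refine hP1 L A Q _ _ (-1) hy Q.neg ?_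
    rw [Units.val_neg, Units.val_one]
    linear_combination (1 : L) * hwi
  have hym : y ^ m = -1 := by
    apply Units.ext
    rw [Units.val_pow_eq_pow_val, Units.val_neg, Units.val_one]
    exact hm
  have s2 : Q.S w⁻¹ (-1) := by
    have h := Q.S_pow s1 m
    rwa [hym] at h
  have s3 : Q.S (c⁻¹ * w) (-1) := by
    refine (hP2 L A Q w⁻¹ (-1) (c⁻¹ * w) Q.neg ?_).1 s2
    rw [Units.val_neg, Units.val_one, Units.val_mul]
    rw [show (1 - -1 : L) = (c : L) by rw [hc]; ring]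
    have h1 := c.inv_mul
    have h2 := w.mul_inv
    linear_combination ((w : L) * ((w⁻¹ : Lˣ) : L)) * h1 + h2
  have s4 : Q.S w (-1) := (Q.S_smul_iff (Q.U.inv_mem hcU)).1 s3
  have hwU : w⁻¹ ∈ Q.U := by
    refine hCMB L A Q w⁻¹ y (-1) s1 (by rw [inv_inv]; exact s4) ?_ hG
    have e : (1 - (y : L)) * (1 - ((-1 : Lˣ) : L)) = ((w * c : Lˣ) : L) := by
      rw [Units.val_mul, hw, hc, Units.val_neg, Units.val_one]
      ring
    rw [e]
    exact Units.isUnit _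
  refine ⟨w, ?_, hw⟩
  have := Q.U.inv_mem hwU
  rwa [inv_inv] at this

end Pool.Agent.Helper69.GD
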